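import Pool.Agent.Lib.helper30.FiveC

set_option autoImplicit false

namespace Pool.Agent.Results.MP_0aa80c_co.NoFive

/-- There is no non-overlapping, translation-self-blocking family of five convex bodies in
three-dimensional Euclidean space. -/
theorem result :
    ¬ ∃ K : Fin 5 → Set (EuclideanSpace ℝ (Fin 3)),
      (∀ i, IsCompact (K i) ∧ Convex ℝ (K i) ∧ (interior (K i)).Nonempty) ∧
      (∀ i j, i ≠ j → interior (K i) ∩ interior (K j) = ∅) ∧
      (∀ i, ∀ v : EuclideanSpace ℝ (Fin 3), ‖v‖ = 1 → ∀ ε : ℝ, 0 < ε →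
        ∃ t ∈ Set.Ioo 0 ε, ∃ j, j ≠ i ∧
          (interior ((fun x => x + t • v) '' K i) ∩ interior (K j)).Nonempty) := by
  rintro ⟨K, h1, h2, h3⟩
  refine Pool.Agent.Lib.Helper30.Five.noOpen (fun i => interior (K i))
    (fun i => (h1 i).2.1.interior) (fun _ => isOpen_interior)
    (fun i j hij => Set.disjoint_iff_inter_eq_empty.2 (h2 i j hij)) (fun i v hv => ?_)
  have hn : 0 < ‖v‖ := norm_pos_iff.2 hv
  obtain ⟨t, ht, j, hj, z, hz1, hz2⟩ := h3 i (‖v‖⁻¹ • v)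
    (by rw [norm_smul, norm_inv, norm_norm, inv_mul_cancel₀ hn.ne']) 1 one_pos
  have e := (Homeomorph.addRight (t • ‖v‖⁻¹ • v)).image_interior (K i)
  simp only [Homeomorph.coe_addRight] at e
  rw [← e] at hz1
  obtain ⟨x, hx, rfl⟩ := hz1
  refine ⟨j, hj, t * ‖v‖⁻¹, mul_pos ht.1 (inv_pos.2 hn), x, hx, ?_⟩
  rw [mul_smul]
  exact hz2

end Pool.Agent.Results.MP_0aa80c_co.NoFive
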